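import Pool.Agent.H66.SIT.Main

/-!
# Strongly incidence-transitive codes under the Jordan-Steiner actions of `Sp(2n,2)`

Complete classification for `3 ≤ k ≤ v/2`.
-/

namespace Pool.Agent.Results.MP_7c375b_co.Classification

open Pool.Agent.H66.SIT

/-- Classification of the `Sp(2n,2)`-strongly incidence-transitive codes in `J(Ω^ε, k)`,
`3 ≤ k ≤ |Ω^ε| / 2`. -/
theorem result {W : Type*} [AddCommGroup W] [Module (ZMod 2) W]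
    (f : LinearMap.BilinForm (ZMod 2) W) (hf : f.IsAlt) (hnd : f.Nondegenerate)
    (n : ℕ) (hn : 1 ≤ n) (hdim : Module.finrank (ZMod 2) W = 2 * n) (ε : ℤˣ)
    (k : ℕ) (hk : 3 ≤ k) (hkv : 2 * k ≤ Nat.card (Omega f n ε))
    (C : Set (Set (Omega f n ε))) :
    IsSIT (jordanSteiner f n ε) k C ↔
      (∃ r : ℕ, ((ε = 1 ∧ 2 ≤ r ∧ r ≤ n) ∨ (ε = -1 ∧ 1 ≤ r ∧ r ≤ n - 1)) ∧
        (k : ℤ) = 2 ^ (n - 1) * (2 ^ (n - r) + (ε : ℤ)) ∧ C = isoFamily f n ε r) ∨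
      (ε = 1 ∧ (k : ℤ) = 2 ^ (2 * n - 2) ∧ C = {γ | γᶜ ∈ isoFamily f n ε 1}) ∨
      (∃ a : ℕ, 1 ≤ a ∧ 2 * a ≤ n ∧
        (k : ℤ) = 2 ^ (n - 2) * ((2 ^ a - 1) * (2 ^ (n - a) - (ε : ℤ))) ∧
        C = ndFamily f n ε a) ∨
      (n = 4 ∧ ε = 1 ∧ k = 10 ∧ C = azFamily f n ε) := by
  rw [isSIT_iff]
  exact main hf hnd hn hdim hk hkv C

end Pool.Agent.Results.MP_7c375b_co.Classification
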